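import Pool.Agent.CMC.Final

open MeasureTheory Matrix

namespace Pool.Agent.Results.MP_3f9847_gt.AutomorphismOrbit

open Pool.Agent.CMC

/-- If `A` is not scalar and has real eigenvalues, an immersed `H`-sphere in `X_A` has at most the
area of its image under every volume and orientation preserving automorphism of `X_A` over
`X_A / ℝ²`. -/
theorem result (A : M2) (hA : 4 * A.det ≤ A.trace ^ 2) (hs : ∀ c : ℝ, A ≠ c • (1 : M2)) (H : ℝ)
    (S : HSphere A H) (φ : V3 → V3) (hφ : Differentiable ℝ φ)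
    (hom : ∀ x y, φ (gmul A x y) = gmul A (φ x) (φ y)) (h2 : ∀ x, φ x 2 = x 2)
    (hdet : (fderiv ℝ φ 0).det = 1) :
    2 ≤ |(blk (fderiv ℝ φ 0)).trace| ∧ 0 < area A S.f - 2 * H * algVol S ∧
      area A S.f + (|(blk (fderiv ℝ φ 0)).trace| - 2) * (area A S.f - 2 * H * algVol S) ≤
        area A (φ ∘ S.f) :=
  orbit S hA hs hφ hom h2 hdet

end Pool.Agent.Results.MP_3f9847_gt.AutomorphismOrbit
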