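import Pool.Agent.CMC.Final

open MeasureTheory Matrix

namespace Pool.Agent.Results.MP_3f9847_gt.GaussMapMoments

open Pool.Agent.CMC

/-- The moments of the left-invariant Gauss map of an immersed `H`-sphere in `X_A`, and the
resulting two-sided bound for area over volume. -/
theorem result (A : M2) (H : ℝ) (S : HSphere A H) :
    (∀ (B : M2) (u : Fin 2 → ℝ), B * A = A * B →
      (sint A S.f fun p => (B.mulVec (hor (S.N p)) + S.N p 2 • u) ⬝ᵥ hor (S.N p)) =
        B.trace * (area A S.f - 2 * H * algVol S)) ∧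
    (sint A S.f fun p => (S.N p 2) ^ 2) = 4 * H * algVol S - area A S.f ∧
    (sint A S.f fun p => S.N p 2) = A.trace * algVol S ∧
    (0 ≤ H → |A.trace| < 2 * H ∧ 0 < algVol S ∧ 2 * H * algVol S < area A S.f ∧
      area A S.f < (2 * H + Real.sqrt (4 * H ^ 2 - A.trace ^ 2)) * algVol S) :=
  ⟨fun _ u hB => moments S hB u, by have := S.minkowski; linarith, S.flux_id,
    fun hH => ⟨trace_lt S hH, (S.H_pos hH).2, lower_strict S, upper_strict S hH⟩⟩

end Pool.Agent.Results.MP_3f9847_gt.GaussMapMoments
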