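import Pool.Agent.CMC.Near

open MeasureTheory Matrix

namespace Pool.Agent.Results.MP_3f9847_gt.NearIsoperimetric

open Pool.Agent.CMC

/-- Non-unimodular `X_A = ℝ² ⋊_A ℝ`: every immersed `H`-sphere `S` which bounds a set `B` satisfies
`P(B) ≤ Area(S) < κ(H) P(Ω)` for every measurable `Ω` of volume at least `vol B`, with
`κ(H) = (2H + √(4H² - τ²)) / τ`, `τ = |tr A| < 2H`. -/
theorem result (A : M2) (hA : A.trace ≠ 0) (H : ℝ) (hH : 0 ≤ H) (S : HSphere A H) (B : Set V3)
    (hB : Bounds S B) :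
    |A.trace| < 2 * H ∧ perim A B ≤ ENNReal.ofReal (area A S.f) ∧
      ∀ Ω : Set V3, MeasurableSet Ω → vol A B ≤ vol A Ω →
        ENNReal.ofReal (area A S.f) <
          ENNReal.ofReal ((2 * H + Real.sqrt (4 * H ^ 2 - A.trace ^ 2)) / |A.trace|) *
            perim A Ω :=
  ⟨trace_lt S hH, perim_le_area S hB, fun _ hm hv => near_isoperimetric' S hA hH hB hm hv⟩

end Pool.Agent.Results.MP_3f9847_gt.NearIsoperimetric
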