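import Pool.Agent.CMC.Profile2

open MeasureTheory Matrix

namespace Pool.Agent.Results.MP_3f9847_gt.ProfileMonotone

open Pool.Agent.CMC

/-- For isoperimetric domains `Ω₁, Ω₂` of `X_A` with volumes `V₁ ≤ V₂`:
`P₂ / V₂ ≤ P₁ / V₁` and `P₁² / V₁ - (tr A)² V₁ ≤ P₂² / V₂ - (tr A)² V₂`. -/
theorem result (A : M2) (Ω₁ Ω₂ : Set V3) (h1 : IsIsoperimetric A Ω₁) (h2 : IsIsoperimetric A Ω₂)
    (hv : vol A Ω₁ ≤ vol A Ω₂) :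
    ENNReal.ofReal (vol A Ω₁) * perim A Ω₂ ≤ ENNReal.ofReal (vol A Ω₂) * perim A Ω₁ ∧
      ENNReal.ofReal (vol A Ω₂) * perim A Ω₁ ^ 2 +
          ENNReal.ofReal (A.trace ^ 2 * vol A Ω₁ * vol A Ω₂ * (vol A Ω₂ - vol A Ω₁)) ≤
        ENNReal.ofReal (vol A Ω₁) * perim A Ω₂ ^ 2 :=
  ⟨profile_ratio A h1 h2 hv, profile_square A h1 h2 hv⟩

end Pool.Agent.Results.MP_3f9847_gt.ProfileMonotone
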